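import Pool.Agent.Zk46.FD.All

/-!
# Palindromes with 5, 7, 9 or 11 digits and at most two prime factors, in every large base

Let `2 ≤ M ≤ 5`. In every base `b ≥ b₀` at least `c b ^ (M + 1) / log b` of the palindromes with exactly `2 M + 1` digits (their
number is `(b - 1) b ^ M`) have at most two prime factors, counted with multiplicity, and all these prime factors are larger than
`n ^ (1/8)`; more generally this holds, in the right order of magnitude, for the palindromes with digits in prescribed intervals of
length at least `b ^ (1 - η)`.  With the base `b ^ k`, `k → ∞`: for every base `b ≥ 2` there are infinitely many integers with at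
most two prime factors whose base-`b` digit string consists of `2 M + 1` blocks of `k` digits, which are the same in reverse order.

Proof. The level of distribution of these palindromes is `b ^ (M + 1 - ε)`, nearly their number: `q` divides the palindrome with
the digit vector `v` if and only if `v` is in the lattice `Λ_q` of the vectors with `q ∣ L(v)`, `L` the linear form with the
coefficients `b ^ j + b ^ (2 M - j)` and `b ^ M`.  If no nonzero vector of the dual lattice is short, the Fourier series of a
smooth weight (an `r`-fold convolution) has only one term.  For the other `q` the short vectors of `Λ_q` are in a hyperplane, which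
bounds the number of the lattice points in the box, and these `q` are few, because they divide `L(v) ≠ 0` for a short vector `v`.
Richert's weights give at most two prime factors, as `(M + 1) / (2 M + 1) ≥ 6 / 11` for `M ≤ 5`.

The moduli `p ^ 2` of the squares of large primes can be larger than the number of the palindromes.  The `k` outer digits fix `n` in
an interval and in a class modulo `p ^ 2 b ^ k`; with the best `k` this saves a power of `b`, except for `p` near a power `b ^ c`.
There a part of the next digit is fixed; in the progression of the `n`, with difference `p ^ 2 b ^ k`, this digit moves by `p ^ 2`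
modulo `b`, which is spread out for all but a few residues `p ^ 2` modulo `b`.

helper46 (plan, assembly), with modules by helper20, helper25, helper43, helper55, helper63, helper67, helper69, helper78,
helper95.
-/

set_option autoImplicit false

namespace Pool.Agent.Results.MP_e8d2ce_nt.FewDigitsTwoFactors

open Finset

/-- The palindromes with exactly `2 M + 1` base-`b` digits which have at most two prime factors, counted with multiplicity, all of
them larger than `n ^ (1/8)`. -/
def almostPrimes (b M : ℕ) : Set ℕ :=
  {n : ℕ | b ^ (2 * M) ≤ n ∧ n < b ^ (2 * M + 1) ∧ (∀ j ≤ 2 * M, n / b ^ j % b = n / b ^ (2 * M - j) % b) ∧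
    n.primeFactorsList.length ≤ 2 ∧ ∀ p : ℕ, p.Prime → p ∣ n → n < p ^ 8}

/-- **Theorem.** (1) Let `2 ≤ M ≤ 5`. There are `η, c > 0` and `b₀` such that for all `b ≥ b₀` and all intervals
`[l_j, l_j + B_j)` in `[1, b)`, `j ≤ M`, with `B_j ≥ b ^ (1 - η)`, at least `c ∏ B_j / log b` of the palindromes with exactly
`2 M + 1` base-`b` digits and the digit number `j` in `[l_j, l_j + B_j)`, for all `j ≤ M`, have at most two prime factors.
(2) For `2 ≤ M ≤ 5` and every `b ≥ 2` there are infinitely many `n` with at most two prime factors which are palindromes with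
exactly `2 M + 1` digits in the base `b ^ k`, for some `k ≥ 1`. -/
theorem result : ∀ M : ℕ, 2 ≤ M → M ≤ 5 →
    (∃ η : ℝ, 0 < η ∧ ∃ c : ℝ, 0 < c ∧ ∃ b₀ : ℕ, ∀ b : ℕ, b₀ ≤ b → ∀ l B : ℕ → ℕ,
      (∀ j ≤ M, 1 ≤ l j ∧ (b : ℝ) ^ (1 - η) ≤ B j ∧ l j + B j ≤ b) →
      c * (∏ j ∈ range (M + 1), (B j : ℝ)) / Real.log b ≤
        {n ∈ almostPrimes b M | ∀ j ≤ M, l j ≤ n / b ^ j % b ∧ n / b ^ j % b < l j + B j}.ncard) ∧
    (∀ b : ℕ, 2 ≤ b → {n : ℕ | ∃ k : ℕ, 1 ≤ k ∧ n ∈ almostPrimes (b ^ k) M}.Infinite) := by
  classical
  intro M hM hM5
  refine ⟨?_, ?_⟩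
  · obtain ⟨η, hη, c, hc, b0, hb0⟩ := Pool.Agent.Zk46.FD.fewBoxes M (by omega) hM5
    refine ⟨η, hη, c, hc, b0, fun b hb l B hl => ?_⟩
    have h1 := hb0 b hb (fun j => l j) (fun j => B j) (fun j => hl j (by omega))
    rw [Fin.prod_univ_eq_prod_range (fun j => (B j : ℝ)) (M + 1)] at h1
    refine h1.trans (le_of_eq ?_)
    rw [← Set.ncard_coe_finset]
    congr 2
    ext n
    rw [mem_coe, mem_filter, mem_Ico, Set.mem_setOf_eq]
    unfold almostPrimes
    rw [Set.mem_setOf_eq]
    constructor
    · rintro ⟨⟨h1, h2⟩, h3, h4, h5, h6⟩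
      exact ⟨⟨h1, h2, h3, h5, h6⟩, fun j hj => h4 ⟨j, by omega⟩⟩
    · rintro ⟨⟨h1, h2, h3, h5, h6⟩, h4⟩
      exact ⟨⟨h1, h2⟩, h3, fun j => h4 j (by omega), h5, h6⟩
  · intro b hb
    have h2 := Pool.Agent.Zk46.FD.fin2 M (by omega) (Pool.Agent.Zk46.FD.few M (by omega) hM5) b hb
    refine h2.mono ?_
    rintro n ⟨k, hk, h3⟩
    exact ⟨k, hk, h3⟩

end Pool.Agent.Results.MP_e8d2ce_nt.FewDigitsTwoFactors
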