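import Pool.Agent.Zk46.PP.Cnt3

/-!
# Primes that are nearly palindromic in every large base

`digit b n j` is the digit number `j` of `n` in base `b`, counted from the right and beginning with `j = 0`. A number with
exactly `2 M + 1` digits is a palindrome if `digit b n j = digit b n (2 M - j)` for all `j < M`.  Let `w j < b`, `j < M`, be
tolerances.  `NearPal b M w` is the set of the integers with exactly `2 M + 1` digits in base `b` such that the mirrored
digits number `j` and `2 M - j` differ by at most `w j`, for all `j < M` (the middle digit is arbitrary). So `w j = 0` means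
that the two digits are equal, and `w j = b - 1` that there is no condition on them.

**Theorem.** Let `ε > 0` and let `b ≥ b₀(ε)` be any integer.

1. For all tolerances such that the product of the `b / (w j + 1)` is at most `K b ^ ((2/5 - ε) M)` over all `j < M`, and at
   most `K b ^ ((1/2 - ε) m)` over `0 ≤ j < m` and over `M - m ≤ j < M`, for all `m ≤ M`, the number of the primes in
   `NearPal b M w` is `(1 + o(1)) (b / φ(b)) #{n ∈ NearPal b M w : (n, b) = 1} / log (b ^ (2 M + 1))`, where `o(1)` tends to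
   zero with `M → ∞`, uniformly in the tolerances (for fixed `b`, `ε`, `K`).
2. For all large `M` there is a prime with exactly `2 M + 1` digits such that all mirrored digits differ by at most
   `b ^ (3/5 + ε)`.
3. Forty per cent of the mirrored pairs can be prescribed to be equal: for all large `M` and all sets `T` of positions
   `j < M` with at most `(2/5 - ε) M + K` elements, at most `(1/2 - ε) m + K` of them among the first `m` positions
   `0, …, m - 1` and among the last `m` positions `M - m, …, M - 1`, for all `m ≤ M`, there is a prime with exactly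
   `2 M + 1` digits such that the digits number `j` and `2 M - j` are equal for all `j ∈ T`.

Proof. Circle method on `ℤ / b ^ (2 M + 1)`. The Fourier transform of the indicator function of `NearPal b M w` is a product
over the pairs of mirrored digits; the factor of a pair is bounded, in terms of the two corresponding digits of the
frequency `k`, by a function whose sum over the `b²` pairs of digits is at most `(b / (w j + 1))` times `60 (1 + log b)²`.
If `k / b ^ (2 M + 1)` is near a fraction `a / q`, `q = q' t`, where `t` is a divisor of a power of `b`, at distance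
`B / b ^ (2 M + 1)`, then `k` is determined, up to 42 possibilities, by `t` and its digits in a central window of length about
`2 log_b q'` and two outer windows of length `log_b max (t, B)`. So the sum of the normalised Fourier transform over these
`k` is at most `(q B) ^ (1/2 - δ)`, and Vaughan's bound `X (q B) ^ (-1/2) + X ^ (4/5)` for the sum over primes suffices as long
as the sum over all `k` is less than `X ^ (1/5)`. On the small major arcs the theorem of Siegel and Walfisz is used, and the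
decay of the Fourier transform if `q` does not divide a power of `b`.
-/

set_option autoImplicit false

namespace Pool.Agent.Results.MP_e8d2ce_nt.NearPalindromes

open Finset

/-- the digit number `j` of `n` in base `b`, counted from the right, beginning with `j = 0` -/
def digit (b n j : ℕ) : ℕ := n / b ^ j % b

/-- the integers with exactly `2 M + 1` digits in base `b` such that for all `j < M` the mirrored digits number `j` and
`2 M - j` differ by at most `w j` -/
def NearPal (b M : ℕ) (w : ℕ → ℕ) : Finset ℕ :=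
  (Ico (b ^ (2 * M)) (b ^ (2 * M + 1))).filter fun n =>
    ∀ j < M, digit b n j ≤ digit b n (2 * M - j) + w j ∧ digit b n (2 * M - j) ≤ digit b n j + w j

/-- the condition on the tolerances `w j`, `j < M` -/
structure Admissible (b M : ℕ) (ε K : ℝ) (w : ℕ → ℕ) : Prop where
  lt : ∀ j < M, w j < b
  outer : ∀ m ≤ M, ∏ j ∈ range m, ((b : ℝ) / (w j + 1)) ≤ K * (b : ℝ) ^ ((1 / 2 - ε) * m)
  central : ∀ m ≤ M, ∏ j ∈ Ico (M - m) M, ((b : ℝ) / (w j + 1)) ≤ K * (b : ℝ) ^ ((1 / 2 - ε) * m)
  total : ∏ j ∈ range M, ((b : ℝ) / (w j + 1)) ≤ K * (b : ℝ) ^ ((2 / 5 - ε) * M)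

/-- the expected number of primes in `NearPal b M w` -/
noncomputable def expected (b M : ℕ) (w : ℕ → ℕ) : ℝ :=
  (b : ℝ) / Nat.totient b * ((NearPal b M w).filter fun n => n.Coprime b).card / Real.log ((b : ℝ) ^ (2 * M + 1))

lemma near_eq (b M : ℕ) (w : ℕ → ℕ) : NearPal b M w = Pool.Agent.Zk46.PP.Near b M w := rfl

lemma expected_eq (b M : ℕ) (w : ℕ → ℕ) : expected b M w =
    (b : ℝ) / Nat.totient b * (Pool.Agent.Zk46.PP.NearC b M w).card / ((2 * M + 1) * Real.log b) := by
  unfold expected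
  rw [Real.log_pow]
  push_cast
  rfl

lemma adm_tol {b M : ℕ} (hb : 1 ≤ b) {ε ε' K : ℝ} (hK : 0 ≤ K) (h : ε' ≤ ε) {w : ℕ → ℕ} (hw : Admissible b M ε K w) :
    Pool.Agent.Zk46.PP.Tol b M ε' K w := by
  have hb1 : (1 : ℝ) ≤ b := by exact_mod_cast hb
  have key : ∀ (γ : ℝ) (m : ℕ), K * (b : ℝ) ^ ((γ - ε) * m) ≤ K * (b : ℝ) ^ ((γ - ε') * m) := fun γ m => by
    apply mul_le_mul_of_nonneg_left _ hK
    apply Real.rpow_le_rpow_of_exponent_le hb1
    exact mul_le_mul_of_nonneg_right (by linarith) (Nat.cast_nonneg _)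
  exact ⟨hw.lt, fun m hm => (hw.outer m hm).trans (key _ _), fun m hm => (hw.central m hm).trans (key _ _),
    hw.total.trans (key _ _)⟩

/-- the asymptotic formula -/
theorem asymptotic {ε : ℝ} (hε : 0 < ε) : ∃ b₀ : ℕ, ∀ b : ℕ, b₀ ≤ b → ∀ K : ℝ, ∀ δ : ℝ, 0 < δ →
    ∃ M₀ : ℕ, ∀ M : ℕ, M₀ ≤ M → ∀ w : ℕ → ℕ, Admissible b M ε K w → 0 < expected b M w ∧
      |(((NearPal b M w).filter Nat.Prime).card : ℝ) - expected b M w| ≤ δ * expected b M w := by
  obtain ⟨b₀, hb₀4, hb₀⟩ := Pool.Agent.Zk46.PP.prime_near (ε := min ε (1 / 5)) (by positivity) (min_le_right _ _)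
  refine ⟨b₀, fun b hb K δ hδ => ?_⟩
  obtain ⟨M₀, hM₀1, hM₀⟩ := hb₀ b hb (max K 1) (by positivity) δ hδ
  refine ⟨M₀, fun M hM w hw => ?_⟩
  have hb4 : 4 ≤ b := hb₀4.trans hb
  have hbr : (4 : ℝ) ≤ b := by exact_mod_cast hb4
  have hw' : Admissible b M ε (max K 1) w :=
    ⟨hw.lt, fun m hm => (hw.outer m hm).trans (mul_le_mul_of_nonneg_right (le_max_left _ _) (by positivity)),
      fun m hm => (hw.central m hm).trans (mul_le_mul_of_nonneg_right (le_max_left _ _) (by positivity)),
      hw.total.trans (mul_le_mul_of_nonneg_right (le_max_left _ _) (by positivity))⟩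
  have h := hM₀ M hM w (adm_tol (by omega) (by positivity) (min_le_left _ _) hw')
  rw [expected_eq, near_eq]
  refine ⟨?_, h.2⟩
  have h1 : (0 : ℝ) < (Pool.Agent.Zk46.PP.NearC b M w).card := by exact_mod_cast h.1
  have h2 : (0 : ℝ) < Nat.totient b := by exact_mod_cast Nat.totient_pos.2 (by omega)
  have h3 : 0 < Real.log b := Real.log_pos (by linarith)
  positivity

/-- existence of primes -/
lemma exists_prime {ε : ℝ} (hε : 0 < ε) : ∃ b₀ : ℕ, 4 ≤ b₀ ∧ ∀ b : ℕ, b₀ ≤ b → ∀ K : ℝ,
    ∃ M₀ : ℕ, ∀ M : ℕ, M₀ ≤ M → ∀ w : ℕ → ℕ, Admissible b M ε K w → ∃ p ∈ NearPal b M w, p.Prime := by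
  obtain ⟨b₀, hb₀⟩ := asymptotic hε
  refine ⟨max b₀ 4, le_max_right _ _, fun b hb K => ?_⟩
  obtain ⟨M₀, hM₀⟩ := hb₀ b ((le_max_left _ _).trans hb) K (1 / 2) (by norm_num)
  refine ⟨M₀, fun M hM w hw => ?_⟩
  obtain ⟨h1, h2⟩ := hM₀ M hM w hw
  have h3 := (abs_le.1 h2).1
  have h4 : (0 : ℝ) < ((NearPal b M w).filter Nat.Prime).card := by linarith
  have h5 : 0 < ((NearPal b M w).filter Nat.Prime).card := by exact_mod_cast h4
  obtain ⟨p, hp⟩ := card_pos.1 h5
  rw [mem_filter] at hp
  exact ⟨p, hp.1, hp.2⟩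

/-- **Theorem.** -/
theorem result (ε : ℝ) (hε : 0 < ε) : ∃ b₀ : ℕ, ∀ b : ℕ, b₀ ≤ b →
    -- the asymptotic formula
    (∀ K δ : ℝ, 0 < δ → ∃ M₀ : ℕ, ∀ M : ℕ, M₀ ≤ M → ∀ w : ℕ → ℕ, Admissible b M ε K w → 0 < expected b M w ∧
      |(((NearPal b M w).filter Nat.Prime).card : ℝ) - expected b M w| ≤ δ * expected b M w) ∧
    -- the same tolerance for all pairs
    (∃ M₀ : ℕ, ∀ M : ℕ, M₀ ≤ M → ∃ p : ℕ, p.Prime ∧ b ^ (2 * M) ≤ p ∧ p < b ^ (2 * M + 1) ∧
      ∀ j < M, |(digit b p j : ℝ) - (digit b p (2 * M - j) : ℝ)| ≤ (b : ℝ) ^ (3 / 5 + ε)) ∧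
    -- equal digits
    (∀ K : ℕ, ∃ M₀ : ℕ, ∀ M : ℕ, M₀ ≤ M → ∀ T : Finset ℕ, T ⊆ range M →
      (∀ m ≤ M, ((T ∩ range m).card : ℝ) ≤ (1 / 2 - ε) * m + K) →
      (∀ m ≤ M, ((T ∩ Ico (M - m) M).card : ℝ) ≤ (1 / 2 - ε) * m + K) →
      (T.card : ℝ) ≤ (2 / 5 - ε) * M + K →
      ∃ p : ℕ, p.Prime ∧ b ^ (2 * M) ≤ p ∧ p < b ^ (2 * M + 1) ∧ ∀ j ∈ T, digit b p j = digit b p (2 * M - j)) := by
  obtain ⟨b₁, hb₁⟩ := asymptotic hε
  obtain ⟨b₂, hb₂4, hb₂⟩ := exists_prime (ε := min ε (1 / 5)) (by positivity)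
  obtain ⟨b₃, hb₃4, hb₃⟩ := exists_prime hε
  refine ⟨max b₁ (max b₂ b₃), fun b hb => ⟨hb₁ b ((le_max_left _ _).trans hb), ?_, ?_⟩⟩
  · have hbb : b₂ ≤ b := (le_max_left _ _).trans ((le_max_right _ _).trans hb)
    have hb4 : 4 ≤ b := hb₂4.trans hbb
    have hbr : (4 : ℝ) ≤ b := by exact_mod_cast hb4
    have hb0 : (0 : ℝ) < b := by linarith
    have hb1 : (1 : ℝ) ≤ b := by linarith
    obtain ⟨M₀, hM₀⟩ := hb₂ b hbb 1
    refine ⟨M₀, fun M hM => ?_⟩
    set η : ℝ := min ε (1 / 5) with hη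
    have hη0 : 0 < η := by positivity
    have hη5 : η ≤ 1 / 5 := min_le_right _ _
    set w : ℕ := min ⌊(b : ℝ) ^ (3 / 5 + ε)⌋₊ (b - 1) with hw
    have hwb : w < b := by omega
    have hw1 : (b : ℝ) / (w + 1) ≤ (b : ℝ) ^ (2 / 5 - η) := by
      rw [div_le_iff₀ (by positivity)]
      rcases le_total ⌊(b : ℝ) ^ (3 / 5 + ε)⌋₊ (b - 1) with h | h
      · rw [hw, min_eq_left h]
        have h1 : (b : ℝ) ^ (3 / 5 + ε) < ⌊(b : ℝ) ^ (3 / 5 + ε)⌋₊ + 1 := Nat.lt_floor_add_one _
        have h2 : (b : ℝ) ^ (3 / 5 + η) ≤ (b : ℝ) ^ (3 / 5 + ε) :=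
          Real.rpow_le_rpow_of_exponent_le hb1 (by linarith [min_le_left ε (1 / 5)])
        calc (b : ℝ) = (b : ℝ) ^ (2 / 5 - η) * (b : ℝ) ^ (3 / 5 + η) := by
              rw [← Real.rpow_add hb0]
              have : 2 / 5 - η + (3 / 5 + η) = 1 := by ring
              rw [this, Real.rpow_one]
          _ ≤ _ := mul_le_mul_of_nonneg_left (by linarith) (by positivity)
      · rw [hw, min_eq_right h]
        have h1 : ((b - 1 : ℕ) : ℝ) + 1 = b := by
          rw [Nat.cast_sub (by omega)]; push_cast; ring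
        rw [h1]
        have h2 : (1 : ℝ) ≤ (b : ℝ) ^ (2 / 5 - η) := Real.one_le_rpow hb1 (by linarith)
        nlinarith
    have hprod : ∀ J : Finset ℕ, ∏ _j ∈ J, ((b : ℝ) / (w + 1)) ≤ (b : ℝ) ^ ((2 / 5 - η) * J.card) := by
      intro J
      rw [prod_const, Real.rpow_mul hb0.le, Real.rpow_natCast]
      exact pow_le_pow_left₀ (by positivity) hw1 _
    have hexp : ∀ m : ℕ, (b : ℝ) ^ ((2 / 5 - η) * m) ≤ (b : ℝ) ^ ((1 / 2 - η) * m) := fun m => by
      apply Real.rpow_le_rpow_of_exponent_le hb1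
      exact mul_le_mul_of_nonneg_right (by linarith) (Nat.cast_nonneg _)
    have hadm : Admissible b M η 1 (fun _ => w) := by
      refine ⟨fun _ _ => hwb, fun m _ => ?_, fun m hm => ?_, ?_⟩
      · rw [one_mul]
        refine le_trans ?_ (hexp m)
        have := hprod (range m)
        rwa [card_range] at this
      · rw [one_mul]
        refine le_trans ?_ (hexp m)
        have := hprod (Ico (M - m) M)
        rwa [Nat.card_Ico, show M - (M - m) = m by omega] at this
      · rw [one_mul]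
        have := hprod (range M)
        rwa [card_range] at this
    obtain ⟨p, hp, hpp⟩ := hM₀ M hM (fun _ => w) hadm
    unfold NearPal at hp
    rw [mem_filter, mem_Ico] at hp
    refine ⟨p, hpp, hp.1.1, hp.1.2, fun j hj => ?_⟩
    obtain ⟨h1, h2⟩ := hp.2 j hj
    have h3 : (w : ℝ) ≤ (b : ℝ) ^ (3 / 5 + ε) := by
      have h4 : (w : ℝ) ≤ ⌊(b : ℝ) ^ (3 / 5 + ε)⌋₊ := by exact_mod_cast min_le_left _ _
      exact h4.trans (Nat.floor_le (by positivity))
    have h1' : (digit b p j : ℝ) ≤ digit b p (2 * M - j) + w := by exact_mod_cast h1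
    have h2' : (digit b p (2 * M - j) : ℝ) ≤ digit b p j + w := by exact_mod_cast h2
    rw [abs_le]
    constructor <;> linarith
  · intro K
    have hbb : b₃ ≤ b := (le_max_right _ _).trans ((le_max_right _ _).trans hb)
    have hb4 : 4 ≤ b := hb₃4.trans hbb
    have hbr : (4 : ℝ) ≤ b := by exact_mod_cast hb4
    have hb0 : (0 : ℝ) < b := by linarith
    have hb1 : (1 : ℝ) ≤ b := by linarith
    obtain ⟨M₀, hM₀⟩ := hb₃ b hbb ((b : ℝ) ^ (K : ℝ))
    refine ⟨M₀, fun M hM T hT hT1 hT2 hT3 => ?_⟩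
    classical
    set w : ℕ → ℕ := fun j => if j ∈ T then 0 else b - 1 with hw
    have hfac : ∀ j, (b : ℝ) / (w j + 1) = if j ∈ T then (b : ℝ) else 1 := by
      intro j
      rw [hw]
      simp only
      split_ifs
      · simp
      · have h1 : ((b - 1 : ℕ) : ℝ) + 1 = b := by
          rw [Nat.cast_sub (by omega)]; push_cast; ring
        rw [h1, div_self hb0.ne']
    have hprod : ∀ (J : Finset ℕ) (x : ℝ), ((T ∩ J).card : ℝ) ≤ x + K →
        ∏ j ∈ J, ((b : ℝ) / (w j + 1)) ≤ (b : ℝ) ^ (K : ℝ) * (b : ℝ) ^ x := by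
      intro J x hx
      have h1 : ∏ j ∈ J, ((b : ℝ) / (w j + 1)) = (b : ℝ) ^ ((T ∩ J).card : ℝ) := by
        rw [prod_congr rfl fun j _ => hfac j, ← prod_filter, prod_const, Real.rpow_natCast]
        congr 2
        rw [filter_mem_eq_inter, inter_comm]
      rw [h1, ← Real.rpow_add hb0]
      exact Real.rpow_le_rpow_of_exponent_le hb1 (by linarith)
    have hadm : Admissible b M ε ((b : ℝ) ^ (K : ℝ)) w := by
      refine ⟨fun j _ => ?_, fun m hm => hprod _ _ (hT1 m hm), fun m hm => hprod _ _ (hT2 m hm), hprod _ _ ?_⟩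
      · rw [hw]; simp only; split_ifs <;> omega
      · refine le_trans ?_ hT3
        exact_mod_cast card_le_card inter_subset_left
    obtain ⟨p, hp, hpp⟩ := hM₀ M hM w hadm
    unfold NearPal at hp
    rw [mem_filter, mem_Ico] at hp
    refine ⟨p, hpp, hp.1.1, hp.1.2, fun j hj => ?_⟩
    obtain ⟨h1, h2⟩ := hp.2 j (mem_range.1 (hT hj))
    have h3 : w j = 0 := by rw [hw]; simp only [if_pos hj]
    rw [h3] at h1 h2
    omega

end Pool.Agent.Results.MP_e8d2ce_nt.NearPalindromes
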