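import Pool.Agent.Zk46.NP2.All

/-!
# Nearly palindromic numbers with at most two prime factors in every large base

`digit b n j` is the digit number `j` of `n` in base `b`, counted from the right and beginning with `j = 0`. A number with
exactly `2 M + 1` digits is a palindrome if `digit b n j = digit b n (2 M - j)` for all `j < M`.  Let `w j < b`, `j < M`, be
tolerances.  `NearPal b M w` is the set of the integers with exactly `2 M + 1` digits in base `b` such that the mirrored
digits number `j` and `2 M - j` differ by at most `w j`, for all `j < M`. `AlmostPrime b M w` is the set of its elements with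
at most two prime factors (counted with multiplicity), all of them larger than `n ^ (1/8)`.

**Theorem.** Let `ε > 0` and let `b ≥ b₀(ε)` be any integer.

1. For all `K`, all large `M` and all tolerances such that the product of the `b / (w j + 1)` is at most
   `K b ^ ((10/11 - ε) M)` over all `j < M`, and at most `K b ^ ((1 - ε) m)` over the central positions `M - m ≤ j < M`, for
   all `m ≤ M`, at least `b ^ ((1 - ε) M) ∏ (w j + 1)` elements of `NearPal b M w` have at most two prime factors.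
   (`NearPal b M w` has at most `b (2 b) ^ M ∏ (w j + 1)` elements.)
2. For all large `M` there is a number with exactly `2 M + 1` digits and at most two prime factors such that all mirrored
   digits differ by at most `b ^ (1/11 + ε)`.
3. Ten elevenths of the mirrored pairs can be prescribed to be equal: for all large `M` and all sets `T` of positions
   `j < M` with at most `(10/11 - ε) M + K` elements, at most `(1 - ε) m + K` of them among the last `m` positions
   `M - m, …, M - 1` (next to the middle), for all `m ≤ M`, there is a number with exactly `2 M + 1` digits and at most two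
   prime factors such that the digits number `j` and `2 M - j` are equal for all `j ∈ T`.

Proof. Weighted sieve (Richert's weights: two prime factors need a level of distribution larger than `n ^ (6/11)`). The numbers
`n` have the digits `d_c` and `d_c + 2 e_c`, `0 ≤ d_c < b + 2 - 2 t_c`, `0 ≤ e_c < t_c`, at the distance `c + 1` from the
middle; so `n` is a linear form in independent variables, without carries, and prime to `2 b`. The level of distribution
is the number of the `n` up to a factor `b ^ (ε M)`: the exponential sum is a product over `c`, and with a Fejér majorant for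
each factor the sum over all fractions `a / q`, `q ~ Q`, is the number of solutions of congruences and so bounded by the
divisor function; a power of `Q` is saved as either one of finitely many blocks of factors is small, or all are large, and
this is rare by the large sieve inequality.
-/

set_option autoImplicit false

namespace Pool.Agent.Results.MP_e8d2ce_nt.NearPalindromesTwoFactors

open Finset

/-- the digit number `j` of `n` in base `b`, counted from the right, beginning with `j = 0` -/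
def digit (b n j : ℕ) : ℕ := n / b ^ j % b

/-- the integers with exactly `2 M + 1` digits in base `b` such that for all `j < M` the mirrored digits number `j` and
`2 M - j` differ by at most `w j` -/
def NearPal (b M : ℕ) (w : ℕ → ℕ) : Finset ℕ :=
  (Ico (b ^ (2 * M)) (b ^ (2 * M + 1))).filter fun n =>
    ∀ j < M, digit b n j ≤ digit b n (2 * M - j) + w j ∧ digit b n (2 * M - j) ≤ digit b n j + w j

open Classical in
/-- the elements `n` of `NearPal b M w` with at most two prime factors, counted with multiplicity, such that all prime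
factors are larger than `n ^ (1/8)` -/
noncomputable def AlmostPrime (b M : ℕ) (w : ℕ → ℕ) : Finset ℕ :=
  (NearPal b M w).filter fun n => n.primeFactorsList.length ≤ 2 ∧ ∀ p : ℕ, p.Prime → p ∣ n → n < p ^ 8

/-- the condition on the tolerances `w j`, `j < M` -/
structure Admissible (b M : ℕ) (ε K : ℝ) (w : ℕ → ℕ) : Prop where
  lt : ∀ j < M, w j < b
  central : ∀ m ≤ M, ∏ j ∈ Ico (M - m) M, ((b : ℝ) / (w j + 1)) ≤ K * (b : ℝ) ^ ((1 - ε) * m)
  total : ∏ j ∈ range M, ((b : ℝ) / (w j + 1)) ≤ K * (b : ℝ) ^ ((10 / 11 - ε) * M)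

/-- many near-palindromes with at most two prime factors -/
theorem many {ε : ℝ} (hε : 0 < ε) : ∃ b₀ : ℕ, 64 ≤ b₀ ∧ ∀ b : ℕ, b₀ ≤ b → ∀ K : ℝ, ∃ M₀ : ℕ, ∀ M : ℕ, M₀ ≤ M →
    ∀ w : ℕ → ℕ, Admissible b M ε K w →
      (b : ℝ) ^ ((1 - ε) * M) * ∏ j ∈ range M, ((w j : ℝ) + 1) ≤ ((AlmostPrime b M w).card : ℝ) := by
  obtain ⟨b₀, hb₀64, hb₀⟩ := Pool.Agent.Zk46.NP2.all (min ε (1 / 2)) (by positivity) (min_le_right _ _)
  refine ⟨b₀, hb₀64, fun b hb K => ?_⟩
  have hb64 : 64 ≤ b := hb₀64.trans hb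
  have hbR : (64 : ℝ) ≤ b := by exact_mod_cast hb64
  have hb1 : (1 : ℝ) ≤ b := by linarith
  obtain ⟨M₀, hM₀⟩ := hb₀ b hb (max K 1) (le_max_right _ _)
  refine ⟨M₀, fun M hM w hw => ?_⟩
  have hmin : min ε (1 / 2) ≤ ε := min_le_left _ _
  have key : ∀ (γ : ℝ) (m : ℕ), K * (b : ℝ) ^ ((γ - ε) * m) ≤ max K 1 * (b : ℝ) ^ ((γ - min ε (1 / 2)) * m) := by
    intro γ m
    apply mul_le_mul (le_max_left _ _) _ (by positivity) (by positivity)
    apply Real.rpow_le_rpow_of_exponent_le hb1
    exact mul_le_mul_of_nonneg_right (by linarith) (Nat.cast_nonneg _)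
  have h : (b : ℝ) ^ ((1 - min ε (1 / 2)) * M) * ∏ j ∈ range M, ((w j : ℝ) + 1) ≤ ((AlmostPrime b M w).card : ℝ) :=
    hM₀ M hM w hw.lt (fun m hm => (hw.central m hm).trans (key 1 m)) (hw.total.trans (key (10 / 11) M))
  refine le_trans ?_ h
  apply mul_le_mul_of_nonneg_right _ (prod_nonneg fun j _ => by positivity)
  apply Real.rpow_le_rpow_of_exponent_le hb1
  exact mul_le_mul_of_nonneg_right (by linarith) (Nat.cast_nonneg _)

open Classical in
/-- existence -/
lemma exists_two {ε : ℝ} (hε : 0 < ε) : ∃ b₀ : ℕ, 64 ≤ b₀ ∧ ∀ b : ℕ, b₀ ≤ b → ∀ K : ℝ,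
    ∃ M₀ : ℕ, ∀ M : ℕ, M₀ ≤ M → ∀ w : ℕ → ℕ, Admissible b M ε K w →
      ∃ n ∈ NearPal b M w, n.primeFactorsList.length ≤ 2 := by
  obtain ⟨b₀, hb₀64, hb₀⟩ := many hε
  refine ⟨b₀, hb₀64, fun b hb K => ?_⟩
  have hbR : (64 : ℝ) ≤ b := by exact_mod_cast hb₀64.trans hb
  obtain ⟨M₀, hM₀⟩ := hb₀ b hb K
  refine ⟨M₀, fun M hM w hw => ?_⟩
  have h := hM₀ M hM w hw
  have h1 : 0 < (b : ℝ) ^ ((1 - ε) * M) * ∏ j ∈ range M, ((w j : ℝ) + 1) :=
    mul_pos (by positivity) (prod_pos fun j _ => by positivity)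
  have h2 : 0 < (AlmostPrime b M w).card := by exact_mod_cast h1.trans_le h
  obtain ⟨n, hn⟩ := card_pos.1 h2
  unfold AlmostPrime at hn
  have hn' := mem_filter.1 hn
  exact ⟨n, hn'.1, hn'.2.1⟩

/-- **Theorem.** -/
theorem result (ε : ℝ) (hε : 0 < ε) : ∃ b₀ : ℕ, ∀ b : ℕ, b₀ ≤ b →
    -- many near-palindromes with at most two prime factors
    (∀ K : ℝ, ∃ M₀ : ℕ, ∀ M : ℕ, M₀ ≤ M → ∀ w : ℕ → ℕ, Admissible b M ε K w →
      (b : ℝ) ^ ((1 - ε) * M) * ∏ j ∈ range M, ((w j : ℝ) + 1) ≤ ((AlmostPrime b M w).card : ℝ)) ∧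
    -- the same tolerance for all pairs
    (∃ M₀ : ℕ, ∀ M : ℕ, M₀ ≤ M → ∃ n : ℕ, n.primeFactorsList.length ≤ 2 ∧ b ^ (2 * M) ≤ n ∧ n < b ^ (2 * M + 1) ∧
      ∀ j < M, |(digit b n j : ℝ) - (digit b n (2 * M - j) : ℝ)| ≤ (b : ℝ) ^ (1 / 11 + ε)) ∧
    -- equal digits
    (∀ K : ℕ, ∃ M₀ : ℕ, ∀ M : ℕ, M₀ ≤ M → ∀ T : Finset ℕ, T ⊆ range M →
      (∀ m ≤ M, ((T ∩ Ico (M - m) M).card : ℝ) ≤ (1 - ε) * m + K) →
      (T.card : ℝ) ≤ (10 / 11 - ε) * M + K →
      ∃ n : ℕ, n.primeFactorsList.length ≤ 2 ∧ b ^ (2 * M) ≤ n ∧ n < b ^ (2 * M + 1) ∧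
        ∀ j ∈ T, digit b n j = digit b n (2 * M - j)) := by
  obtain ⟨b₁, hb₁64, hb₁⟩ := many hε
  obtain ⟨b₂, hb₂64, hb₂⟩ := exists_two (ε := min ε (1 / 5)) (by positivity)
  obtain ⟨b₃, hb₃64, hb₃⟩ := exists_two hε
  refine ⟨max b₁ (max b₂ b₃), fun b hb => ⟨hb₁ b ((le_max_left _ _).trans hb), ?_, ?_⟩⟩
  · have hbb : b₂ ≤ b := (le_max_left _ _).trans ((le_max_right _ _).trans hb)
    have hb4 : 64 ≤ b := hb₂64.trans hbb
    have hbr : (64 : ℝ) ≤ b := by exact_mod_cast hb4
    have hb0 : (0 : ℝ) < b := by linarith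
    have hb1 : (1 : ℝ) ≤ b := by linarith
    obtain ⟨M₀, hM₀⟩ := hb₂ b hbb 1
    refine ⟨M₀, fun M hM => ?_⟩
    set η : ℝ := min ε (1 / 5) with hη
    have hη0 : 0 < η := by positivity
    have hη5 : η ≤ 1 / 5 := min_le_right _ _
    set w : ℕ := min ⌊(b : ℝ) ^ (1 / 11 + ε)⌋₊ (b - 1) with hw
    have hwb : w < b := by omega
    have hw1 : (b : ℝ) / (w + 1) ≤ (b : ℝ) ^ (10 / 11 - η) := by
      rw [div_le_iff₀ (by positivity)]
      rcases le_total ⌊(b : ℝ) ^ (1 / 11 + ε)⌋₊ (b - 1) with h | h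
      · rw [hw, min_eq_left h]
        have h1 : (b : ℝ) ^ (1 / 11 + ε) < ⌊(b : ℝ) ^ (1 / 11 + ε)⌋₊ + 1 := Nat.lt_floor_add_one _
        have h2 : (b : ℝ) ^ (1 / 11 + η) ≤ (b : ℝ) ^ (1 / 11 + ε) :=
          Real.rpow_le_rpow_of_exponent_le hb1 (by linarith [min_le_left ε (1 / 5)])
        calc (b : ℝ) = (b : ℝ) ^ (10 / 11 - η) * (b : ℝ) ^ (1 / 11 + η) := by
              rw [← Real.rpow_add hb0]
              have : 10 / 11 - η + (1 / 11 + η) = 1 := by ring
              rw [this, Real.rpow_one]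
          _ ≤ _ := mul_le_mul_of_nonneg_left (by linarith) (by positivity)
      · rw [hw, min_eq_right h]
        have h1 : ((b - 1 : ℕ) : ℝ) + 1 = b := by
          rw [Nat.cast_sub (by omega)]; push_cast; ring
        rw [h1]
        have h2 : (1 : ℝ) ≤ (b : ℝ) ^ (10 / 11 - η) := Real.one_le_rpow hb1 (by linarith)
        nlinarith
    have hprod : ∀ J : Finset ℕ, ∏ _j ∈ J, ((b : ℝ) / (w + 1)) ≤ (b : ℝ) ^ ((10 / 11 - η) * J.card) := by
      intro J
      rw [prod_const, Real.rpow_mul hb0.le, Real.rpow_natCast]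
      exact pow_le_pow_left₀ (by positivity) hw1 _
    have hadm : Admissible b M η 1 (fun _ => w) := by
      refine ⟨fun _ _ => hwb, fun m hm => ?_, ?_⟩
      · rw [one_mul]
        have h1 := hprod (Ico (M - m) M)
        rw [Nat.card_Ico, show M - (M - m) = m by omega] at h1
        refine h1.trans (Real.rpow_le_rpow_of_exponent_le hb1 ?_)
        exact mul_le_mul_of_nonneg_right (by linarith) (Nat.cast_nonneg _)
      · rw [one_mul]
        have := hprod (range M)
        rwa [card_range] at this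
    obtain ⟨p, hp, hpp⟩ := hM₀ M hM (fun _ => w) hadm
    unfold NearPal at hp
    rw [mem_filter, mem_Ico] at hp
    refine ⟨p, hpp, hp.1.1, hp.1.2, fun j hj => ?_⟩
    obtain ⟨h1, h2⟩ := hp.2 j hj
    have h3 : (w : ℝ) ≤ (b : ℝ) ^ (1 / 11 + ε) := by
      have h4 : (w : ℝ) ≤ ⌊(b : ℝ) ^ (1 / 11 + ε)⌋₊ := by exact_mod_cast min_le_left _ _
      exact h4.trans (Nat.floor_le (by positivity))
    have h1' : (digit b p j : ℝ) ≤ digit b p (2 * M - j) + w := by exact_mod_cast h1
    have h2' : (digit b p (2 * M - j) : ℝ) ≤ digit b p j + w := by exact_mod_cast h2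
    rw [abs_le]
    constructor <;> linarith
  · intro K
    have hbb : b₃ ≤ b := (le_max_right _ _).trans ((le_max_right _ _).trans hb)
    have hb4 : 64 ≤ b := hb₃64.trans hbb
    have hbr : (64 : ℝ) ≤ b := by exact_mod_cast hb4
    have hb0 : (0 : ℝ) < b := by linarith
    have hb1 : (1 : ℝ) ≤ b := by linarith
    obtain ⟨M₀, hM₀⟩ := hb₃ b hbb ((b : ℝ) ^ (K : ℝ))
    refine ⟨M₀, fun M hM T hT hT2 hT3 => ?_⟩
    classical
    set w : ℕ → ℕ := fun j => if j ∈ T then 0 else b - 1 with hw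
    have hfac : ∀ j, (b : ℝ) / (w j + 1) = if j ∈ T then (b : ℝ) else 1 := by
      intro j
      rw [hw]
      simp only
      split_ifs
      · simp
      · have h1 : ((b - 1 : ℕ) : ℝ) + 1 = b := by
          rw [Nat.cast_sub (by omega)]; push_cast; ring
        rw [h1, div_self hb0.ne']
    have hprod : ∀ (J : Finset ℕ) (x : ℝ), ((T ∩ J).card : ℝ) ≤ x + K →
        ∏ j ∈ J, ((b : ℝ) / (w j + 1)) ≤ (b : ℝ) ^ (K : ℝ) * (b : ℝ) ^ x := by
      intro J x hx
      have h1 : ∏ j ∈ J, ((b : ℝ) / (w j + 1)) = (b : ℝ) ^ ((T ∩ J).card : ℝ) := by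
        rw [prod_congr rfl fun j _ => hfac j, ← prod_filter, prod_const, Real.rpow_natCast]
        congr 2
        rw [filter_mem_eq_inter, inter_comm]
      rw [h1, ← Real.rpow_add hb0]
      exact Real.rpow_le_rpow_of_exponent_le hb1 (by linarith)
    have hadm : Admissible b M ε ((b : ℝ) ^ (K : ℝ)) w := by
      refine ⟨fun j _ => ?_, fun m hm => hprod _ _ (hT2 m hm), hprod _ _ ?_⟩
      · rw [hw]; simp only; split_ifs <;> omega
      · refine le_trans ?_ hT3
        exact_mod_cast card_le_card inter_subset_left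
    obtain ⟨p, hp, hpp⟩ := hM₀ M hM w hadm
    unfold NearPal at hp
    rw [mem_filter, mem_Ico] at hp
    refine ⟨p, hpp, hp.1.1, hp.1.2, fun j hj => ?_⟩
    obtain ⟨h1, h2⟩ := hp.2 j (mem_range.1 (hT hj))
    have h3 : w j = 0 := by rw [hw]; simp only [if_pos hj]
    rw [h3] at h1 h2
    omega

end Pool.Agent.Results.MP_e8d2ce_nt.NearPalindromesTwoFactors
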