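import Mathlib
import Pool.Agent.Zk41.TD.FB
import Pool.Agent.Zk41.TD.FC
import Pool.Agent.Zk78.TD.SR

/-!
# Three-digit palindromes with at most two prime factors

In every large base `b` there are at least `c b^2 / log b` palindromes with exactly three digits `a c a` and at most two
prime factors, and the digits `a` and `c` may be prescribed up to intervals: it is enough that the number of the pairs
`(a, c)` left is at least `b^θ` with `θ > 1.6358`.  Dense sets of such palindromes contain narrow progressions.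
-/

set_option autoImplicit false

namespace Pool.Agent.Results.MP_e8d2ce_nt.ThreeDigitPalindromes

open Finset Filter

/-- the number `1.834...` -/
noncomputable def lam : ℝ := 1 + Real.log (5 / 2) / Real.log 3

open Classical in
/-- the numbers `n` whose base-`b` digits are `a, c, a` with `a₀ ≤ a < a₀ + A` and `c₀ ≤ c < c₀ + C`, and which have at
most two prime factors, counted with multiplicity, all of them at least `b^(2/5)` -/
noncomputable def points (b a₀ A c₀ C : ℕ) : Finset ℕ :=
  (range (b ^ 3)).filter fun n => (∃ a ∈ Ico a₀ (a₀ + A), ∃ c ∈ Ico c₀ (c₀ + C), Nat.digits b n = [a, c, a]) ∧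
    n.primeFactorsList.length ≤ 2 ∧ ∀ p ∈ n.primeFactorsList, (b : ℝ) ^ (2 / 5 : ℝ) ≤ p

open Pool.Agent.Zk41.TD (pal Good pal_le)

lemma digits_pal {b a c : ℕ} (hb : 2 ≤ b) (ha0 : 1 ≤ a) (ha : a < b) (hc : c < b) :
    Nat.digits b (pal b a c) = [a, c, a] := by
  have h := Nat.digits_ofDigits b (by omega) [a, c, a] (by
    intro l hl
    simp only [List.mem_cons, List.not_mem_nil, or_false] at hl
    omega) (by
    intro h
    simp only [List.getLast_cons_cons, List.getLast_singleton]
    omega)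
  have e : Nat.ofDigits b [a, c, a] = pal b a c := by
    simp only [Nat.ofDigits_cons, Nat.ofDigits_nil, pal]
    push_cast
    ring
  rwa [e] at h

lemma pal_lt {b a c : ℕ} (hb : 2 ≤ b) (ha0 : 1 ≤ a) (ha : a < b) (hc : c < b) : pal b a c < b ^ 3 := by
  have h := Nat.lt_base_pow_length_digits (b := b) (m := pal b a c) (by omega)
  rw [digits_pal hb ha0 ha hc] at h
  exact h

lemma eq_pal {b a c n : ℕ} (h : Nat.digits b n = [a, c, a]) : n = pal b a c := by
  have h1 := Nat.ofDigits_digits b n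
  rw [h] at h1
  rw [← h1]
  simp only [Nat.ofDigits_cons, Nat.ofDigits_nil, pal]
  push_cast
  ring

lemma pal_pos {b a c : ℕ} (ha0 : 1 ≤ a) : pal b a c ≠ 0 := by
  unfold pal
  have : 0 < a * (b ^ 2 + 1) := Nat.mul_pos ha0 (by positivity)
  omega

lemma good_iff {b a c : ℕ} (ha0 : 1 ≤ a) : Good b a c ↔ (pal b a c).primeFactorsList.length ≤ 2 ∧
    ∀ p ∈ (pal b a c).primeFactorsList, (b : ℝ) ^ (2 / 5 : ℝ) ≤ p := by
  unfold Good
  constructor
  · rintro ⟨h1, h2⟩
    refine ⟨h1, fun p hp => ?_⟩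
    rw [Nat.mem_primeFactorsList (pal_pos ha0)] at hp
    exact h2 p hp.1 hp.2
  · rintro ⟨h1, h2⟩
    exact ⟨h1, fun p hp hpd => h2 p ((Nat.mem_primeFactorsList (pal_pos ha0)).2 ⟨hp, hpd⟩)⟩

/-- Let `lam = 1.834...`, `θ > 3 / lam = 1.6357...`.  There is `κ > 0` such that for all large bases `b` and all intervals of
`A` leading digits and of `C` middle digits with `A C ≥ b^θ` at least `κ A C / log b` of the three-digit palindromes
with these digits have at most two prime factors, all of them at least `b^(2/5)`; and for all `m`, `ε > 0` there is `B`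
such that, for all large `b` and all such intervals, every set of at least `ε A C / log b` of them contains
`x, x + d b, …, x + (m - 1) d b` with `1 ≤ d ≤ (log b)^B` (the same leading digit, the middle digits in progression). -/
theorem result (θ : ℝ) (hθ : 3 / lam < θ) :
    (∃ κ : ℝ, 0 < κ ∧ ∀ᶠ b : ℕ in atTop, ∀ a₀ A c₀ C : ℕ, 1 ≤ a₀ → a₀ + A ≤ b → c₀ + C ≤ b → (b : ℝ) ^ θ ≤ A * C →
      κ * (A * C) / Real.log b ≤ (points b a₀ A c₀ C).card) ∧
    ∀ (m : ℕ) (ε : ℝ), 0 < ε → ∃ B : ℕ, ∀ᶠ b : ℕ in atTop, ∀ a₀ A c₀ C : ℕ, 1 ≤ a₀ → a₀ + A ≤ b → c₀ + C ≤ b →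
      (b : ℝ) ^ θ ≤ A * C → ∀ S ⊆ points b a₀ A c₀ C, ε * (A * C) / Real.log b ≤ S.card →
        ∃ x d : ℕ, 1 ≤ d ∧ (d : ℝ) ≤ Real.log b ^ B ∧ ∀ i < m, x + i * d * b ∈ S := by
  classical
  have hlam : lam = Pool.Agent.K3h19.RV.Lam 2 := by
    unfold lam Pool.Agent.K3h19.RV.Lam
    norm_num
  rw [hlam] at hθ
  constructor
  · obtain ⟨κ, hκ, b0, h⟩ := Pool.Agent.Zk41.TD.boxes Pool.Agent.Zk78.TD.sq' θ hθ
    refine ⟨κ, hκ, ?_⟩
    filter_upwards [eventually_ge_atTop (b0 + 2)] with b hb a₀ A c₀ C ha0 ha hc hAC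
    refine (h b (by omega) A C a₀ c₀ hAC ha0 ha hc).trans ?_
    have h1 : ((Ico a₀ (a₀ + A) ×ˢ Ico c₀ (c₀ + C)).filter (fun w : ℕ × ℕ => Good b w.1 w.2)).card ≤
        (points b a₀ A c₀ C).card := by
      apply card_le_card_of_injOn (fun w => pal b w.1 w.2)
      · intro w hw
        simp only [coe_filter, mem_product, mem_Ico, Set.mem_setOf_eq] at hw
        obtain ⟨⟨⟨g1, g2⟩, g3, g4⟩, g5⟩ := hw
        unfold points
        simp only [coe_filter, mem_range, Set.mem_setOf_eq]
        refine ⟨pal_lt (by omega) (by omega) (by omega) (by omega), ⟨w.1, mem_Ico.2 ⟨g1, g2⟩, w.2, mem_Ico.2 ⟨g3, g4⟩,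
          digits_pal (by omega) (by omega) (by omega) (by omega)⟩, (good_iff (by omega)).1 g5⟩
      · intro w hw w' hw' e
        simp only [coe_filter, mem_product, mem_Ico, Set.mem_setOf_eq] at hw hw'
        obtain ⟨⟨⟨g1, g2⟩, g3, g4⟩, g5⟩ := hw
        obtain ⟨⟨⟨k1, k2⟩, k3, k4⟩, k5⟩ := hw'
        have h2 := digits_pal (b := b) (a := w.1) (c := w.2) (by omega) (by omega) (by omega) (by omega)
        have h3 := digits_pal (b := b) (a := w'.1) (c := w'.2) (by omega) (by omega) (by omega) (by omega)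
        simp only at e
        rw [e, h3] at h2
        simp only [List.cons.injEq, and_true] at h2
        exact Prod.ext h2.1.symm h2.2.1.symm
    exact_mod_cast h1
  · intro m ε hε
    obtain ⟨B, b1, h⟩ := Pool.Agent.Zk41.TD.narrow θ hθ m ε hε
    refine ⟨B, ?_⟩
    filter_upwards [eventually_ge_atTop (b1 + 2)] with b hb a₀ A c₀ C ha0 ha hc hAC S hS hSc
    obtain ⟨T, hT⟩ : ∃ T : Finset (ℕ × ℕ), T = ((Ico a₀ (a₀ + A) ×ˢ Ico c₀ (c₀ + C)).filter
      (fun w : ℕ × ℕ => Good b w.1 w.2)).filter (fun w => pal b w.1 w.2 ∈ S) := ⟨_, rfl⟩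
    have hcard : S.card ≤ T.card := by
      have h1 : S ⊆ T.image (fun w => pal b w.1 w.2) := by
        intro n hn
        have h2 := hS hn
        unfold points at h2
        simp only [mem_filter, mem_range] at h2
        obtain ⟨h3, ⟨a, haI, c, hcI, hd⟩, h4, h5⟩ := h2
        have e := eq_pal hd
        rw [mem_Ico] at haI
        rw [mem_image]
        refine ⟨(a, c), ?_, e.symm⟩
        rw [hT]
        simp only [mem_filter, mem_product]
        refine ⟨⟨⟨mem_Ico.2 haI, hcI⟩, (good_iff (by omega)).2 ?_⟩, e ▸ hn⟩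
        rw [← e]
        exact ⟨h4, h5⟩
      exact (card_le_card h1).trans card_image_le
    obtain ⟨a, c, d, hd1, hd2, hd3⟩ := h b (by omega) A C a₀ c₀ hAC ha0 ha hc T (by
      rw [hT]; exact filter_subset _ _) (hSc.trans (by exact_mod_cast hcard))
    refine ⟨pal b a c, d, hd1, hd2, fun i hi => ?_⟩
    have h3 := hd3 i hi
    rw [hT, mem_filter] at h3
    have e : pal b a c + i * d * b = pal b a (c + i * d) := by
      unfold pal; ring
    rw [e]
    exact h3.2

end Pool.Agent.Results.MP_e8d2ce_nt.ThreeDigitPalindromes
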